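import Pool.Agent.W275.ND.Stm

/-!
# Project ND, part NOF: systems close to the cyclic system have no fixed point
-/

set_option autoImplicit false

namespace Pool.Agent.W327.ND

open MvPolynomial Pool.Agent.H936R2 Pool.Agent.W275.ND

/-- scaling of a nonzero vector over the field of fractions of a valuation ring -/
lemma exists_prim (A : Type) [CommRing A] [IsDomain A] [IsDiscreteValuationRing A] (K : Type)
    [Field K] [Algebra A K] [IsFractionRing A K] {n : ℕ} (x : Fin n → K) (hx : x ≠ 0) :
    ∃ (s : K) (y : Fin n → A) (j : Fin n), s ≠ 0 ∧ y j = 1 ∧ ∀ i, x i = s * algebraMap A K (y i) := by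
  obtain ⟨i₀, hi₀⟩ := Function.ne_iff.1 hx
  have : Nonempty (Fin n) := ⟨i₀⟩
  obtain ⟨j, hj⟩ := Finite.exists_max fun i => ValuationRing.valuation A K (x i)
  have hxj : x j ≠ 0 := by
    intro h0
    have h1 := hj i₀
    rw [h0, map_zero] at h1
    have h2 : ValuationRing.valuation A K (x i₀) = 0 := le_antisymm h1 zero_le
    rw [map_eq_zero] at h2
    exact hi₀ h2
  have h : ∀ i, ∃ a : A, algebraMap A K a = x i / x j := by
    intro i
    rw [← ValuationRing.mem_integer_iff, Valuation.mem_integer_iff, map_div₀]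
    refine div_le_one_of_le₀ (hj i) zero_le
  choose y hy using h
  refine ⟨x j, Function.update y j 1, j, hxj, Function.update_self _ _ _, fun i => ?_⟩
  by_cases hij : i = j
  · subst hij
    rw [Function.update_self, map_one, mul_one]
  · rw [Function.update_of_ne hij, hy, mul_div_cancel₀ _ hxj]

theorem main : S_nof := by
  intro A _ _ _ K _ _ _ π t hπ hπt N d hN hd hdt R hR x c hx hcon
  obtain ⟨s, y, j, hs, hyj, hxy⟩ := exists_prim A K x hx
  have hp : Prime π := hπ.prime
  set F : Fin (N + 1) → MvPolynomial (Fin (N + 1)) A :=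
    fun i => cyc t N d i + C (t ^ (2 * d + 2)) * R i with hF
  have hcyc : ∀ i, (cyc t N d i).IsHomogeneous d := by
    intro i
    unfold cyc
    split_ifs with h
    · have h1 := (isHomogeneous_X A (⟨(i : ℕ) + 1, h⟩ : Fin (N + 1))).pow d
      rwa [one_mul] at h1
    · have h1 := (isHomogeneous_C (Fin (N + 1)) t).mul ((isHomogeneous_X A (0 : Fin (N + 1))).pow d)
      rwa [one_mul, zero_add] at h1
  have hFh : ∀ i, (F i).IsHomogeneous d := by
    intro i
    refine (hcyc i).add ?_
    have h1 := (isHomogeneous_C (Fin (N + 1)) (t ^ (2 * d + 2))).mul (hR i)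
    rwa [zero_add] at h1
  -- the equation over `A`
  have heval : ∀ i, eval x (near K t (2 * d + 2) (cyc t N d) R i) =
      s ^ d * algebraMap A K (eval y (F i)) := by
    intro i
    have h1 : x = fun i => s * algebraMap A K (y i) := by
      funext i
      rw [hxy i]
    have h2 : near K t (2 * d + 2) (cyc t N d) R i = map (algebraMap A K) (F i) := rfl
    rw [h1, h2, eval_scale _ d ((hFh i).map _), eval_map]
    congr 1
    have h3 := eval₂_comp_left (algebraMap A K) (RingHom.id _) y (F i)
    rw [RingHom.comp_id] at h3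
    exact h3.symm
  have hc : ∀ i, s ^ d * algebraMap A K (eval y (F i)) = c * (s * algebraMap A K (y i)) := by
    intro i
    rw [← heval i, ← hxy i]
    exact congrFun hcon i
  have hsd : s ^ d ≠ 0 := pow_ne_zero _ hs
  have hl : ∀ i, eval y (F i) = eval y (F j) * y i := by
    intro i
    apply IsFractionRing.injective A K
    rw [map_mul]
    have h1 := hc j
    rw [hyj, map_one, mul_one] at h1
    have h2 := hc i
    refine mul_left_cancel₀ hsd ?_
    rw [h2, ← mul_assoc, ← mul_assoc, h1]
  set l := eval y (F j) with hldef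
  set r : Fin (N + 1) → A := fun i => t ^ (2 * d + 2) * eval y (R i) with hr
  have hFi : ∀ (i : Fin (N + 1)) (h : (i : ℕ) + 1 < N + 1),
      y ⟨(i : ℕ) + 1, h⟩ ^ d + r i = l * y i := by
    intro i h
    rw [← hl i]
    simp only [hF, cyc, dif_pos h, map_add, map_mul, map_pow, eval_X, eval_C, hr]
  have hFN : t * y 0 ^ d + r (Fin.last N) = l * y (Fin.last N) := by
    rw [← hl (Fin.last N)]
    have h : ¬ ((Fin.last N : Fin (N + 1)) : ℕ) + 1 < N + 1 := by simp
    simp only [hF, cyc, dif_neg h, map_add, map_mul, map_pow, eval_X, eval_C, hr]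
  have hrπ : ∀ i, π ∣ r i := fun i =>
    (hπt.trans (dvd_pow_self t (by omega))).mul_right _
  have hrπd : ∀ i, π ^ d ∣ r i := fun i =>
    ((pow_dvd_pow π (by omega : d ≤ 2 * d + 2)).trans (pow_dvd_pow_of_dvd hπt _)).mul_right _
  -- `π` divides `l`
  have hπl : π ∣ l := by
    by_contra hnl
    have hlast : π ∣ y (Fin.last N) := by
      have h1 : π ∣ l * y (Fin.last N) := by
        rw [← hFN]
        exact dvd_add (hπt.mul_right _) (hrπ _)
      exact (hp.dvd_or_dvd h1).resolve_left hnl
    have hall : ∀ k : ℕ, ∀ i : Fin (N + 1), (i : ℕ) + k = N → π ∣ y i := by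
      intro k
      induction k with
      | zero =>
        intro i hi
        have : i = Fin.last N := Fin.ext (by simpa using hi)
        rw [this]
        exact hlast
      | succ k ih =>
        intro i hi
        have h : (i : ℕ) + 1 < N + 1 := by omega
        have h1 : π ∣ l * y i := by
          rw [← hFi i h]
          exact dvd_add (dvd_pow (ih ⟨(i : ℕ) + 1, h⟩ (by simp only; omega)) (by omega)) (hrπ _)
        exact (hp.dvd_or_dvd h1).resolve_left hnl
    have h1 := hall (N - j) j (by have := j.2; omega)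
    rw [hyj] at h1
    exact hp.not_isUnit (isUnit_of_dvd_one h1)
  -- `π` divides `y i` for `i ≥ 1`
  have hy : ∀ i : Fin (N + 1), (i : ℕ) ≠ 0 → π ∣ y i := by
    intro i hi
    have h : ((⟨(i : ℕ) - 1, by omega⟩ : Fin (N + 1)) : ℕ) + 1 < N + 1 := by
      simp only
      omega
    have h1 := hFi ⟨(i : ℕ) - 1, by omega⟩ h
    have h2 : (⟨((⟨(i : ℕ) - 1, by omega⟩ : Fin (N + 1)) : ℕ) + 1, h⟩ : Fin (N + 1)) = i :=
      Fin.ext (by simp only; omega)
    rw [h2] at h1
    have h3 : π ∣ y i ^ d := by
      have h4 : y i ^ d = l * y ⟨(i : ℕ) - 1, by omega⟩ - r ⟨(i : ℕ) - 1, by omega⟩ := by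
        rw [← h1]
        ring
      rw [h4]
      exact dvd_sub (hπl.mul_right _) (hrπ _)
    exact hp.dvd_of_dvd_pow h3
  have hj0 : j = 0 := by
    by_contra h
    have h1 := hy j (fun h2 => h (Fin.ext h2))
    rw [hyj] at h1
    exact hp.not_isUnit (isUnit_of_dvd_one h1)
  rw [hj0] at hyj
  -- `π ^ d` divides `l`
  have hπdl : π ^ d ∣ l := by
    have h : ((0 : Fin (N + 1)) : ℕ) + 1 < N + 1 := by simp; omega
    have h1 := hFi 0 h
    rw [hyj, mul_one] at h1
    rw [← h1]
    exact dvd_add (pow_dvd_pow_of_dvd (hy _ (by simp)) d) (hrπd _)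
  -- conclusion
  apply hdt
  have h1 : l ∣ t * (1 + t ^ (2 * d + 1) * eval y (R (Fin.last N))) := by
    refine ⟨y (Fin.last N), ?_⟩
    rw [← hFN, hyj, one_pow]
    simp only [hr]
    ring
  have hu : IsUnit (1 + t ^ (2 * d + 1) * eval y (R (Fin.last N))) := by
    by_contra hnu
    have h2 : (1 + t ^ (2 * d + 1) * eval y (R (Fin.last N))) ∈ IsLocalRing.maximalIdeal A :=
      hnu
    have h3 : π ∣ 1 + t ^ (2 * d + 1) * eval y (R (Fin.last N)) := by
      rw [hπ.maximalIdeal_eq, Ideal.mem_span_singleton] at h2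
      exact h2
    have h4 : π ∣ t ^ (2 * d + 1) * eval y (R (Fin.last N)) :=
      (hπt.trans (dvd_pow_self t (by omega))).mul_right _
    exact hp.not_isUnit (isUnit_of_dvd_one ((dvd_add_left h4).1 h3))
  have h5 := hπdl.trans h1
  exact (hu.dvd_mul_right).1 h5

end Pool.Agent.W327.ND
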