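import Pool.Agent.W912.ND.Defs

/-!
# Project ND: simple facts on functions computed in few rounds of questions (ND-RQD)
-/

set_option autoImplicit false

namespace Pool.Agent.W327.ND.RQD

open Pool.Agent.H676 Pool.Agent.W912.ND

variable {I : Type} [Fintype I] [DecidableEq I]

lemma dtr (q r : ℕ) : ∀ g : (I → Bool) → Bool, RQ q r g → DTr (r * q) g := by
  induction r with
  | zero =>
    intro g h
    obtain ⟨c, hc⟩ := h
    exact DTr.const ⟨c, hc⟩
  | succ r ih =>
    intro g h
    obtain ⟨Q, hQ, h⟩ := h
    have h1 : DTr (Q.card + r * q) g := DTr.query Q (fun π => ih _ (h π))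
    refine h1.mono ?_
    rw [Nat.succ_mul]
    omega

lemma upd (q r : ℕ) : ∀ (g : (I → Bool) → Bool), RQ q r g → ∀ (i : I) (b : Bool),
    RQ q r (fun a => g (Function.update a i b)) := by
  induction r with
  | zero =>
    intro g h i b
    obtain ⟨c, hc⟩ := h
    exact ⟨c, fun a => hc _⟩
  | succ r ih =>
    intro g h i b
    obtain ⟨Q, hQ, h⟩ := h
    refine ⟨Q, hQ, fun π => ?_⟩
    by_cases hi : i ∈ Q
    · have e : (fun a : I → Bool => g (Function.update (ow Q π a) i b)) =
          fun a => g (ow Q (Function.update π i b) a) := by
        funext a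
        congr 1
        funext j
        unfold ow
        by_cases hj : j = i
        · subst hj
          simp [hi]
        · simp [Function.update_of_ne hj]
      change RQ q r (fun a : I → Bool => g (Function.update (ow Q π a) i b))
      rw [e]
      exact h _
    · have e : (fun a : I → Bool => g (Function.update (ow Q π a) i b)) =
          fun a => (fun a' => g (ow Q π a')) (Function.update a i b) := by
        funext a
        simp only
        congr 1
        funext j
        unfold ow
        by_cases hj : j = i
        · subst hj
          simp [hi]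
        · simp [Function.update_of_ne hj]
      change RQ q r (fun a : I → Bool => g (Function.update (ow Q π a) i b))
      rw [e]
      exact ih _ (h π) i b

lemma suc (q r : ℕ) : ∀ g : (I → Bool) → Bool, RQ q r g → RQ q (r + 1) g := by
  induction r with
  | zero =>
    intro g h
    obtain ⟨c, hc⟩ := h
    exact ⟨∅, by simp, fun π => ⟨c, fun a => hc _⟩⟩
  | succ r ih =>
    intro g h
    obtain ⟨Q, hQ, h⟩ := h
    exact ⟨Q, hQ, fun π => ih _ (h π)⟩

theorem main : S_RQD := by
  intro I _ _ q r g h
  exact ⟨dtr q r g h, fun i b => upd q r g h i b, suc q r g h⟩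

end Pool.Agent.W327.ND.RQD
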